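import Pool.Agent.R239.EA.H

/-!
# Edwards-Anderson ground states: the couplings far away matter with probability at least c / r

Two independent families of couplings, the cut argument for typical (not worst case) influence.
-/

set_option autoImplicit false

open Finset MeasureTheory ProbabilityTheory Filter Topology

namespace Pool.Agent.Run7.h472.EA

open Pool.Agent.R239.EA

variable {d : ℕ}

/-- the first family of couplings -/
def fs (W : (Fin d → ℤ) × Fin d → ℝ × ℝ) : (Fin d → ℤ) × Fin d → ℝ := fun f => (W f).1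

open Classical in
/-- the first family on the bonds touching the box of radius `r` around the bond, the second family
elsewhere -/
noncomputable def hyb (e : (Fin d → ℤ) × Fin d) (r : ℕ) (W : (Fin d → ℤ) × Fin d → ℝ × ℝ) :
    (Fin d → ℤ) × Fin d → ℝ := fun f => if f ∈ tb e.1 r then (W f).1 else (W f).2

open Classical in
/-- signs of the first family changed on `L` -/
noncomputable def flW (L : Set ((Fin d → ℤ) × Fin d)) (W : (Fin d → ℤ) × Fin d → ℝ × ℝ) :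
    (Fin d → ℤ) × Fin d → ℝ × ℝ := fun f => if f ∈ L then (-(W f).1, (W f).2) else W f

/-- some ground states for the two families disagree on the bond `e` -/
def DD (e : (Fin d → ℤ) × Fin d) (r : ℕ) : Set ((Fin d → ℤ) × Fin d → ℝ × ℝ) :=
  {W | ∃ σ τ, GA (fs W) σ ∧ GA (hyb e r W) τ ∧ e ∈ dC {x | σ x ≠ τ x}}

lemma fs_flW (L : Set ((Fin d → ℤ) × Fin d)) (W : (Fin d → ℤ) × Fin d → ℝ × ℝ) :
    fs (flW L W) = flS L (fs W) := by
  funext f
  unfold fs flW flS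
  by_cases h : f ∈ L <;> simp [h]

lemma hyb_flW {L : Set ((Fin d → ℤ) × Fin d)} {e : (Fin d → ℤ) × Fin d} {r : ℕ}
    (hL : ∀ f ∈ tb e.1 r, f ∉ L) (W : (Fin d → ℤ) × Fin d → ℝ × ℝ) :
    hyb e r (flW L W) = hyb e r W := by
  funext f
  unfold hyb flW
  by_cases h : f ∈ tb e.1 r
  · simp [h, hL f h]
  · by_cases h2 : f ∈ L <;> simp [h, h2]

open Classical in
/-- spins changed on `H` -/
noncomputable def fH (H : Set (Fin d → ℤ)) (τ : (Fin d → ℤ) → ℝ) : (Fin d → ℤ) → ℝ :=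
  fun x => if x ∈ H then -τ x else τ x

lemma gaugeGA {J : (Fin d → ℤ) × Fin d → ℝ} {K L : Set ((Fin d → ℤ) × Fin d)}
    {H : Set (Fin d → ℤ)} (hKL : ∀ f, f ∈ L ↔ ¬ (f ∈ K ↔ f ∈ dC H)) {τ : (Fin d → ℤ) → ℝ}
    (hτ : GA (flS K J) τ) : GA (flS L J) (fH H τ) := by
  classical
  intro n
  refine ⟨fun x => ?_, fun A hA hAB => ?_⟩
  · unfold fH
    split_ifs
    · rcases (hτ n).1 x with h | h <;> rw [h] <;> simp
    · exact (hτ n).1 x
  · have h1 := (hτ n).2 A hA hAB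
    have h2 : ∑ᶠ f ∈ dC (A : Set (Fin d → ℤ)), flS K J f * (τ f.1 * τ (nx f)) =
        ∑ᶠ f ∈ dC (A : Set (Fin d → ℤ)), flS L J f * (fH H τ f.1 * fH H τ (nx f)) := by
      refine finsum_mem_congr rfl fun f _ => ?_
      have h3 := hKL f
      unfold dC at h3
      simp only [Set.mem_ofPred_eq] at h3
      unfold flS fH
      by_cases ha : f.1 ∈ H <;> by_cases hb : nx f ∈ H <;> by_cases hc : f ∈ K <;>
        simp only [ha, hb, hc] at h3 <;> simp only [ha, hb, hc, h3] <;> simp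
    rw [h2] at h1
    exact h1

lemma setne {σ ρ τ : (Fin d → ℤ) → ℝ} (hσ : ∀ x, σ x = 1 ∨ σ x = -1)
    (hρ : ∀ x, ρ x = 1 ∨ ρ x = -1) (hτ : ∀ x, τ x = 1 ∨ τ x = -1) :
    {x | σ x ≠ τ x} = symmDiff {x | σ x ≠ ρ x} {x | τ x ≠ ρ x} := by
  ext x
  simp only [Set.mem_symmDiff, Set.mem_ofPred_eq]
  rcases hσ x with h1 | h1 <;> rcases hρ x with h2 | h2 <;> rcases hτ x with h3 | h3 <;>
    rw [h1, h2, h3] <;> norm_num

lemma setneH {σ τ : (Fin d → ℤ) → ℝ} (hσ : ∀ x, σ x = 1 ∨ σ x = -1)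
    (hτ : ∀ x, τ x = 1 ∨ τ x = -1) (H : Set (Fin d → ℤ)) :
    {x | σ x ≠ fH H τ x} = symmDiff {x | σ x ≠ τ x} H := by
  classical
  ext x
  simp only [Set.mem_symmDiff, Set.mem_ofPred_eq]
  unfold fH
  by_cases hx : x ∈ H
  · rw [if_pos hx]
    rcases hσ x with h1 | h1 <;> rcases hτ x with h2 | h2 <;> rw [h1, h2] <;> norm_num [hx]
  · rw [if_neg hx]
    simp [hx]

lemma self_tb (e : (Fin d → ℤ) × Fin d) (r : ℕ) : e ∈ tb e.1 r := by
  rw [mem_tb, mem_bx]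
  left
  rw [sub_self, nrm_zero]
  omega

lemma agree_far {W : (Fin d → ℤ) × Fin d → ℝ × ℝ} {K L : Set ((Fin d → ℤ) × Fin d)}
    {H : Set (Fin d → ℤ)} (hKL : ∀ f, f ∈ L ↔ ¬ (f ∈ K ↔ f ∈ dC H))
    {σ τ ρ : (Fin d → ℤ) → ℝ} (hσ : GA (fs W) σ) (hτ : GA (flS K (fs W)) τ)
    {e : (Fin d → ℤ) × Fin d} {r : ℕ} (hL : ∀ f ∈ tb e.1 r, f ∉ L) (hρ : GA (hyb e r W) ρ)
    (h1 : W ∉ DD e r) (h2 : flW L W ∉ DD e r) : e ∈ dC {x | σ x ≠ τ x} ↔ e ∈ K := by
  have hτ' := gaugeGA hKL hτ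
  have e1 : e ∉ dC {x | σ x ≠ ρ x} := fun h => h1 ⟨σ, ρ, hσ, hρ, h⟩
  have e2 : e ∉ dC {x | fH H τ x ≠ ρ x} := by
    intro h
    refine h2 ⟨fH H τ, ρ, ?_, ?_, h⟩
    · rw [fs_flW]; exact hτ'
    · rw [hyb_flW hL]; exact hρ
  have e3 : e ∉ dC {x | σ x ≠ fH H τ x} := by
    rw [setne (hσ 0).1 (hρ 0).1 (hτ' 0).1, dC_symmDiff]
    simp [e1, e2]
  rw [setneH (hσ 0).1 (hτ 0).1, dC_symmDiff, not_not] at e3
  rw [e3]
  have h4 := hKL e
  have h5 := hL e (self_tb e r)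
  rw [h4, not_not] at h5
  exact h5.symm

/-- the cut: bonds in direction `i` which cross the half space `x i ≤ c i` below `c` -/
def KK (c : Fin d → ℤ) (i j : Fin d) : Set ((Fin d → ℤ) × Fin d) :=
  {e | e.2 = i ∧ e.1 i = c i ∧ e.1 j ≤ c j}

/-- the complementary cut -/
def LL (c : Fin d → ℤ) (i j : Fin d) : Set ((Fin d → ℤ) × Fin d) :=
  {e | e.2 = i ∧ e.1 i = c i ∧ c j < e.1 j}

/-- On every square around `c` some bond feels the couplings far away. -/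
theorem sq {W : (Fin d → ℤ) × Fin d → ℝ × ℝ} (r : ℕ) (c : Fin d → ℤ) {i j : Fin d} (hij : i ≠ j)
    (hσ : ∃ σ, GA (fs W) σ) (hτ : ∃ τ, GA (flS (KK c i j) (fs W)) τ)
    (hρ : ∀ e, ∃ ρ, GA (hyb e r W) ρ)
    (hA : ∀ t < 2 * r + 3, W ∉ DD (c - ((r : ℤ) + 1) • u i - (r : ℤ) • u j + (t : ℤ) • u i, i) r ∧
      flW (LL c i j) W ∉ DD (c - ((r : ℤ) + 1) • u i - (r : ℤ) • u j + (t : ℤ) • u i, i) r)
    (hB : ∀ t < 2 * r + 3, W ∉ DD (c - ((r : ℤ) + 1) • u i + ((r : ℤ) + 1) • u j + (t : ℤ) • u i, i) r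
      ∧ flW (KK c i j) W ∉ DD (c - ((r : ℤ) + 1) • u i + ((r : ℤ) + 1) • u j + (t : ℤ) • u i, i) r)
    (hC : ∀ t < 2 * r + 1, W ∉ DD (c - ((r : ℤ) + 1) • u i - (r : ℤ) • u j + (t : ℤ) • u j, j) r ∧
      flW (KK c i j) W ∉ DD (c - ((r : ℤ) + 1) • u i - (r : ℤ) • u j + (t : ℤ) • u j, j) r)
    (hD : ∀ t < 2 * r + 1, W ∉ DD (c + ((r : ℤ) + 2) • u i - (r : ℤ) • u j + (t : ℤ) • u j, j) r ∧
      flW (KK c i j) W ∉ DD (c + ((r : ℤ) + 2) • u i - (r : ℤ) • u j + (t : ℤ) • u j, j) r) :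
    False := by
  classical
  obtain ⟨σ, hσ⟩ := hσ
  obtain ⟨τ, hτ⟩ := hτ
  have hji : j ≠ i := hij.symm
  set H : Set (Fin d → ℤ) := {v | v i ≤ c i} with hH
  have hdH : ∀ e : (Fin d → ℤ) × Fin d, e ∈ dC H ↔ e.2 = i ∧ e.1 i = c i := by
    intro e
    unfold dC nx
    simp only [Set.mem_ofPred_eq, hH, Pi.add_apply]
    by_cases he : e.2 = i
    · rw [he, u_same]
      simp only [true_and]
      omega
    · rw [u_ne (fun h => he h.symm)]
      simp [he]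
  set K := KK c i j with hK
  have hKL1 : ∀ f, f ∈ LL c i j ↔ ¬ (f ∈ K ↔ f ∈ dC H) := by
    intro f
    rw [hdH]
    simp only [hK, LL, KK, Set.mem_ofPred_eq]
    constructor
    · rintro ⟨h1, h2, h3⟩ h
      have := (h.2 ⟨h1, h2⟩).2.2
      omega
    · intro h
      by_contra hc
      refine h ⟨fun h4 => ⟨h4.1, h4.2.1⟩, fun h4 => ⟨h4.1, h4.2, ?_⟩⟩
      by_contra h5
      exact hc ⟨h4.1, h4.2, by omega⟩
  have hKL2 : ∀ f, f ∈ K ↔ ¬ (f ∈ K ↔ f ∈ dC (∅ : Set (Fin d → ℤ))) := by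
    intro f
    rw [dC_empty]
    simp
  -- where the bonds touching a box are
  have htb : ∀ (w : Fin d → ℤ) (e : (Fin d → ℤ) × Fin d), e ∈ tb w r → e.2 = i →
      |e.1 j - w j| ≤ r ∧ -(r : ℤ) - 1 ≤ e.1 i - w i ∧ e.1 i - w i ≤ r := by
    intro w e he he2
    rw [mem_tb, mem_bx', mem_bx'] at he
    rcases he with h | h
    · refine ⟨h j, ?_, ?_⟩
      · have := (abs_le.1 (h i)).1; linarith
      · exact (abs_le.1 (h i)).2
    · have h1 := h j
      have h2 := h i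
      unfold nx at h1 h2
      rw [Pi.add_apply, he2, u_ne hji, add_zero] at h1
      rw [Pi.add_apply, he2, u_same, abs_le] at h2
      exact ⟨h1, by linarith [h2.1], by linarith [h2.2]⟩
  have hlow : ∀ w : Fin d → ℤ, w j = c j - r → ∀ f ∈ tb w r, f ∉ LL c i j := by
    intro w hw f hf h
    have h1 := (htb w f hf h.1).1
    have h2 := (abs_le.1 h1).2
    have h3 := h.2.2
    linarith
  have hhigh : ∀ w : Fin d → ℤ, w j = c j + r + 1 → ∀ f ∈ tb w r, f ∉ K := by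
    intro w hw f hf h
    have h1 := (htb w f hf h.1).1
    have h2 := (abs_le.1 h1).1
    have h3 := h.2.2
    linarith
  have hleft : ∀ w : Fin d → ℤ, w i = c i - r - 1 → ∀ f ∈ tb w r, f ∉ K := by
    intro w hw f hf h
    have h1 := (htb w f hf h.1).2.2
    linarith [h.2.1]
  have hright : ∀ w : Fin d → ℤ, w i = c i + r + 2 → ∀ f ∈ tb w r, f ∉ K := by
    intro w hw f hf h
    have h1 := (htb w f hf h.1).2.1
    linarith [h.2.1]
  set a : Fin d → ℤ := c - ((r : ℤ) + 1) • u i - (r : ℤ) • u j with ha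
  set b : Fin d → ℤ := c + ((r : ℤ) + 2) • u i - (r : ℤ) • u j with hb
  set d' : Fin d → ℤ := c - ((r : ℤ) + 1) • u i + ((r : ℤ) + 1) • u j with hd'
  have hai : a i = c i - r - 1 := by
    simp only [ha, Pi.sub_apply, Pi.smul_apply, u_same, u_ne hij, smul_eq_mul]; ring
  have haj : a j = c j - r := by
    simp only [ha, Pi.sub_apply, Pi.smul_apply, u_same, u_ne hji, smul_eq_mul]; ring
  have hbi : b i = c i + r + 2 := by
    simp only [hb, Pi.sub_apply, Pi.add_apply, Pi.smul_apply, u_same, u_ne hij, smul_eq_mul]; ring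
  have hdj : d' j = c j + r + 1 := by
    simp only [hd', Pi.sub_apply, Pi.add_apply, Pi.smul_apply, u_same, u_ne hji, smul_eq_mul]; ring
  have hab : a + ((2 * r + 3 : ℕ) : ℤ) • u i = b := by
    funext k
    simp only [ha, hb, Pi.sub_apply, Pi.add_apply, Pi.smul_apply, smul_eq_mul]
    push_cast; ring
  have had : a + ((2 * r + 1 : ℕ) : ℤ) • u j = d' := by
    funext k
    simp only [ha, hd', Pi.sub_apply, Pi.add_apply, Pi.smul_apply, smul_eq_mul]
    push_cast; ring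
  have hbd : b + ((2 * r + 1 : ℕ) : ℤ) • u j = d' + ((2 * r + 3 : ℕ) : ℤ) • u i := by
    funext k
    simp only [hb, hd', Pi.sub_apply, Pi.add_apply, Pi.smul_apply, smul_eq_mul]
    push_cast; ring
  set S : Set (Fin d → ℤ) := {x | σ x ≠ τ x} with hS
  have hline : ∀ (s : Fin d → ℤ) (k : Fin d) (L : Set ((Fin d → ℤ) × Fin d))
      (H' : Set (Fin d → ℤ)) (t : ℕ), (∀ f, f ∈ L ↔ ¬ (f ∈ K ↔ f ∈ dC H')) →
      (∀ f ∈ tb (s + (t : ℤ) • u k) r, f ∉ L) →
      (W ∉ DD (s + (t : ℤ) • u k, k) r ∧ flW L W ∉ DD (s + (t : ℤ) • u k, k) r) →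
      (((s + (t : ℤ) • u k, k) : (Fin d → ℤ) × Fin d) ∈ dC S ↔
        ((s + (t : ℤ) • u k, k) : (Fin d → ℤ) × Fin d) ∈ K) := by
    intro s k L H' t hKL hL hW
    obtain ⟨ρ, hρ'⟩ := hρ (s + (t : ℤ) • u k, k)
    exact agree_far hKL hσ hτ hL hρ' hW.1 hW.2
  -- left side
  have hLs : a ∈ S ↔ d' ∈ S := by
    rw [← had]
    refine walk fun t ht => ?_
    rw [hline a j K ∅ t hKL2 (hleft _ (by
      rw [Pi.add_apply, Pi.smul_apply, u_ne hij, smul_zero, add_zero, hai])) (hC t ht)]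
    intro h
    exact hji h.1
  -- right side
  have hR : b ∈ S ↔ d' + ((2 * r + 3 : ℕ) : ℤ) • u i ∈ S := by
    rw [← hbd]
    refine walk fun t ht => ?_
    rw [hline b j K ∅ t hKL2 (hright _ (by
      rw [Pi.add_apply, Pi.smul_apply, u_ne hij, smul_zero, add_zero, hbi])) (hD t ht)]
    intro h
    exact hji h.1
  -- top side
  have hT : d' ∈ S ↔ d' + ((2 * r + 3 : ℕ) : ℤ) • u i ∈ S := by
    refine walk fun t ht => ?_
    rw [hline d' i K ∅ t hKL2 (hhigh _ (by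
      rw [Pi.add_apply, Pi.smul_apply, u_ne hji, smul_zero, add_zero, hdj])) (hB t ht)]
    intro h
    have h1 := h.2.2
    simp only [Pi.add_apply, Pi.smul_apply, u_ne hji, smul_zero, add_zero, hdj] at h1
    linarith
  -- bottom side
  have hbot : ∀ t : ℕ, t < 2 * r + 3 →
      (((a + (t : ℤ) • u i, i) : (Fin d → ℤ) × Fin d) ∈ dC S ↔ t = r + 1) := by
    intro t ht
    rw [hline a i (LL c i j) H t hKL1 (hlow _ (by
      rw [Pi.add_apply, Pi.smul_apply, u_ne hji, smul_zero, add_zero, haj])) (hA t ht)]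
    simp only [hK, KK, Set.mem_ofPred_eq]
    simp only [Pi.add_apply, Pi.smul_apply, u_same, u_ne hji, smul_eq_mul, mul_one, mul_zero,
      add_zero, hai, haj, true_and]
    omega
  have hB1 : a ∈ S ↔ a + ((r + 1 : ℕ) : ℤ) • u i ∈ S :=
    walk fun t ht => by rw [hbot t (by omega)]; omega
  have hB2 : ¬ (a + ((r + 1 : ℕ) : ℤ) • u i ∈ S ↔ a + ((r + 2 : ℕ) : ℤ) • u i ∈ S) := by
    have h1 := (hbot (r + 1) (by omega)).2 rfl
    unfold dC nx at h1
    simp only [Set.mem_ofPred_eq] at h1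
    have h2 : a + ((r + 2 : ℕ) : ℤ) • u i = a + ((r + 1 : ℕ) : ℤ) • u i + u i := by
      rw [add_assoc, show ((r + 2 : ℕ) : ℤ) = ((r + 1 : ℕ) : ℤ) + 1 by push_cast; ring, add_smul,
        one_smul]
    rw [h2]
    exact h1
  have hB3 : a + ((r + 2 : ℕ) : ℤ) • u i ∈ S ↔ b ∈ S := by
    have h1 : a + ((r + 2 : ℕ) : ℤ) • u i + ((r + 1 : ℕ) : ℤ) • u i = b := by
      rw [← hab, add_assoc, ← add_smul]
      congr 2
      push_cast; ring
    rw [← h1]
    refine walk fun t ht => ?_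
    have h2 : a + ((r + 2 : ℕ) : ℤ) • u i + (t : ℤ) • u i = a + ((r + 2 + t : ℕ) : ℤ) • u i := by
      rw [add_assoc, ← add_smul, Nat.cast_add (r + 2) t]
    rw [h2, hbot (r + 2 + t) (by omega)]
    omega
  exact hB2 (hB1.symm.trans (hLs.trans (hT.trans (hR.symm.trans hB3.symm))))

end Pool.Agent.Run7.h472.EA
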