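import Pool.Agent.Run7.h472.EA.A

/-!
# Edwards-Anderson ground states: measurability, laws, and the bound c / r
-/

set_option autoImplicit false

open Finset MeasureTheory ProbabilityTheory Filter Topology

namespace Pool.Agent.Run7.h472.EA

open Pool.Agent.R239.EA

variable {d : ℕ}

/-! ### Measurability -/

lemma compact_two {J J' : (Fin d → ℤ) × Fin d → ℝ} (e : (Fin d → ℤ) × Fin d)
    (h : ∀ n : ℕ, ∃ σ τ, GI (bx 0 n) J σ ∧ GI (bx 0 n) J' τ ∧ e ∈ dC {x | σ x ≠ τ x}) :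
    ∃ σ τ, GA J σ ∧ GA J' τ ∧ e ∈ dC {x | σ x ≠ τ x} := by
  classical
  set F : ℕ → Set ((Fin d → ℤ) → Bool × Bool) := fun n => {f | GI (bx 0 n) J (s1 f) ∧
    GI (bx 0 n) J' (s2 f) ∧ e ∈ dC {x | s1 f x ≠ s2 f x}} with hF
  have hclosed : ∀ n, IsClosed (F n) := by
    intro n
    refine closed_of_dep (bx 0 (n + 1) ∪ {e.1, nx e}) ?_
    rintro f f' hff ⟨h1, h2, h3⟩
    have e1 : ∀ x ∈ bx (0 : Fin d → ℤ) (n + 1), s1 f x = s1 f' x := by
      intro x hx
      unfold s1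
      rw [hff x (Finset.mem_union_left _ hx)]
    have e2 : ∀ x ∈ bx (0 : Fin d → ℤ) (n + 1), s2 f x = s2 f' x := by
      intro x hx
      unfold s2
      rw [hff x (Finset.mem_union_left _ hx)]
    refine ⟨GI_congr (fun _ _ => rfl) e1 (s1_pm f') h1, GI_congr (fun _ _ => rfl) e2 (s2_pm f') h2,
      ?_⟩
    unfold dC s1 s2 at h3 ⊢
    simp only [Set.mem_ofPred_eq] at h3 ⊢
    rw [← hff e.1 (by simp), ← hff (nx e) (by simp)]
    exact h3
  have hmono : ∀ n, F (n + 1) ⊆ F n := by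
    rintro n f ⟨h1, h2, h3⟩
    have hs : bx (0 : Fin d → ℤ) n ⊆ bx 0 (n + 1) := bx_sub (by rw [sub_self, nrm_zero]; omega)
    exact ⟨h1.mono hs, h2.mono hs, h3⟩
  have hne : ∀ n, (F n).Nonempty := by
    intro n
    obtain ⟨σ, τ, h1, h2, h3⟩ := h n
    obtain ⟨f, hf1, hf2⟩ := to_bool σ τ h1.1 h2.1
    refine ⟨f, ?_⟩
    simp only [hF, Set.mem_ofPred_eq, hf1, hf2]
    exact ⟨h1, h2, h3⟩
  obtain ⟨f, hf⟩ := IsCompact.nonempty_iInter_of_sequence_nonempty_isCompact_isClosed F hmono hne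
    (hclosed 0).isCompact hclosed
  rw [Set.mem_iInter] at hf
  exact ⟨s1 f, s2 f, fun n => (hf n).1, fun n => (hf n).2.1, (hf 0).2.2⟩

lemma fs_meas : Measurable (fs : ((Fin d → ℤ) × Fin d → ℝ × ℝ) → _) := by
  unfold fs; fun_prop

lemma hyb_meas (e : (Fin d → ℤ) × Fin d) (r : ℕ) : Measurable (hyb e r) := by
  classical
  refine measurable_pi_lambda _ fun f => ?_
  unfold hyb
  by_cases h : f ∈ tb e.1 r
  · simp only [h, if_true]; fun_prop
  · simp only [h, if_false]; fun_prop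

lemma to_spin {σ : (Fin d → ℤ) → ℝ} (hσ : ∀ x, σ x = 1 ∨ σ x = -1) (B : Finset (Fin d → ℤ)) :
    ∃ P ∈ B.powerset, ∀ x ∈ B, σ x = spin P x := by
  classical
  refine ⟨B.filter fun x => σ x = -1, Finset.mem_powerset.2 (Finset.filter_subset _ _), ?_⟩
  intro x hx
  unfold spin
  rcases hσ x with h | h
  · rw [if_neg (by rw [Finset.mem_filter, h]; norm_num), h]
  · rw [if_pos (by rw [Finset.mem_filter]; exact ⟨hx, h⟩), h]

lemma dd_meas (e : (Fin d → ℤ) × Fin d) (r : ℕ) : MeasurableSet (DD e r) := by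
  classical
  have h1 : DD e r = ⋂ n : ℕ, ⋃ P ∈ (bx 0 (n + 1) ∪ {e.1, nx e}).powerset,
      ⋃ Q ∈ (bx 0 (n + 1) ∪ {e.1, nx e}).powerset,
        ((fs ⁻¹' {J | GI (bx 0 n) J (spin P)}) ∩ (hyb e r ⁻¹' {J | GI (bx 0 n) J (spin Q)}) ∩
          {_W | e ∈ dC {x | spin P x ≠ spin Q x}}) := by
    ext W
    simp only [Set.mem_iInter, Set.mem_iUnion, Set.mem_inter_iff, Set.mem_preimage,
      Set.mem_ofPred_eq]
    constructor
    · rintro ⟨σ, τ, hσ, hτ, h⟩ n
      obtain ⟨P, hP, hP'⟩ := to_spin (hσ 0).1 (bx 0 (n + 1) ∪ {e.1, nx e})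
      obtain ⟨Q, hQ, hQ'⟩ := to_spin (hτ 0).1 (bx 0 (n + 1) ∪ {e.1, nx e})
      refine ⟨P, hP, Q, hQ, ⟨?_, ?_⟩, ?_⟩
      · exact GI_congr (fun _ _ => rfl) (fun x hx => hP' x (Finset.mem_union_left _ hx))
          (spin_pm P) (hσ n)
      · exact GI_congr (fun _ _ => rfl) (fun x hx => hQ' x (Finset.mem_union_left _ hx))
          (spin_pm Q) (hτ n)
      · unfold dC at h ⊢
        simp only [Set.mem_ofPred_eq] at h ⊢
        rw [← hP' e.1 (by simp), ← hQ' e.1 (by simp), ← hP' (nx e) (by simp),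
          ← hQ' (nx e) (by simp)]
        exact h
    · intro h
      obtain ⟨σ, τ, h2, h3, h4⟩ := compact_two (J := fs W) (J' := hyb e r W) e (fun n => by
        obtain ⟨P, -, Q, -, ⟨h2, h3⟩, h4⟩ := h n
        exact ⟨spin P, spin Q, h2, h3, h4⟩)
      exact ⟨σ, τ, h2, h3, h4⟩
  rw [h1]
  refine MeasurableSet.iInter fun n => Finset.measurableSet_biUnion _ fun P _ =>
    Finset.measurableSet_biUnion _ fun Q _ => ?_
  exact ((fs_meas (GI_meas _ _)).inter (hyb_meas e r (GI_meas _ _))).inter (MeasurableSet.const _)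

/-! ### Laws -/

variable (μ : Measure ℝ) [IsProbabilityMeasure μ]

/-- the law of two independent families of couplings -/
noncomputable def QQ (d : ℕ) : Measure ((Fin d → ℤ) × Fin d → ℝ × ℝ) :=
  Measure.infinitePi fun _ : (Fin d → ℤ) × Fin d => μ.prod μ

instance : IsProbabilityMeasure (QQ μ d) := by unfold QQ; infer_instance

lemma fs_law : MeasurePreserving fs (QQ μ d) (Lw μ d) := by
  have h1 := Measure.infinitePi_map_pi (μ := fun _ : (Fin d → ℤ) × Fin d => μ.prod μ)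
    (f := fun _ => Prod.fst) (fun _ => measurable_fst)
  have h2 : (fun _ : (Fin d → ℤ) × Fin d => (μ.prod μ).map Prod.fst) = fun _ => μ := by
    funext e
    exact (measurePreserving_fst (μ := μ) (ν := μ)).map_eq
  refine ⟨fs_meas, ?_⟩
  rw [h2] at h1
  exact h1

lemma hyb_law (e : (Fin d → ℤ) × Fin d) (r : ℕ) :
    MeasurePreserving (hyb e r) (QQ μ d) (Lw μ d) := by
  classical
  have hm : ∀ f : (Fin d → ℤ) × Fin d,
      Measurable (fun p : ℝ × ℝ => if f ∈ tb e.1 r then p.1 else p.2) := by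
    intro f
    by_cases h : f ∈ tb e.1 r
    · simp only [h, if_true]; fun_prop
    · simp only [h, if_false]; fun_prop
  have h1 := Measure.infinitePi_map_pi (μ := fun _ : (Fin d → ℤ) × Fin d => μ.prod μ) hm
  have h2 : (fun f : (Fin d → ℤ) × Fin d =>
      (μ.prod μ).map (fun p : ℝ × ℝ => if f ∈ tb e.1 r then p.1 else p.2)) = fun _ => μ := by
    funext f
    by_cases h : f ∈ tb e.1 r
    · simp only [h, if_true]; exact (measurePreserving_fst (μ := μ) (ν := μ)).map_eq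
    · simp only [h, if_false]; exact (measurePreserving_snd (μ := μ) (ν := μ)).map_eq
  refine ⟨hyb_meas e r, ?_⟩
  rw [h2] at h1
  unfold QQ Lw
  rw [← h1]
  congr 1

lemma flW_law (hsym : μ.map (fun x => -x) = μ) (L : Set ((Fin d → ℤ) × Fin d)) :
    MeasurePreserving (flW L) (QQ μ d) (QQ μ d) := by
  classical
  have hm : ∀ f : (Fin d → ℤ) × Fin d,
      Measurable (fun p : ℝ × ℝ => if f ∈ L then (-p.1, p.2) else p) := by
    intro f
    by_cases h : f ∈ L
    · simp only [h, if_true]; fun_prop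
    · simp only [h, if_false]; fun_prop
  have h1 := Measure.infinitePi_map_pi (μ := fun _ : (Fin d → ℤ) × Fin d => μ.prod μ) hm
  have hneg : (μ.prod μ).map (fun p : ℝ × ℝ => (-p.1, p.2)) = μ.prod μ := by
    have h3 := Measure.map_prod_map μ μ (f := fun x : ℝ => -x) (g := id) measurable_neg
      measurable_id
    rw [hsym, Measure.map_id] at h3
    exact h3.symm
  have h2 : (fun f : (Fin d → ℤ) × Fin d =>
      (μ.prod μ).map (fun p : ℝ × ℝ => if f ∈ L then (-p.1, p.2) else p)) =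
      fun _ => μ.prod μ := by
    funext f
    by_cases h : f ∈ L
    · simp only [h, if_true]; exact hneg
    · simp only [h, if_false]; exact Measure.map_id
  have hmeas : Measurable (flW L) := by
    refine measurable_pi_lambda _ fun f => ?_
    exact (hm f).comp (measurable_pi_apply f)
  refine ⟨hmeas, ?_⟩
  rw [h2] at h1
  unfold QQ
  exact h1

/-- translation -/
def shW (w : Fin d → ℤ) (W : (Fin d → ℤ) × Fin d → ℝ × ℝ) : (Fin d → ℤ) × Fin d → ℝ × ℝ :=
  fun e => W (e.1 + w, e.2)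

lemma shW_law (w : Fin d → ℤ) : MeasurePreserving (shW w) (QQ μ d) (QQ μ d) := by
  refine ⟨by unfold shW; fun_prop, ?_⟩
  unfold QQ shW
  have hinj : Function.Injective (fun e : (Fin d → ℤ) × Fin d =>
      ((e.1 + w, e.2) : (Fin d → ℤ) × Fin d)) := by
    intro e e' h
    simp only [Prod.mk.injEq, add_left_inj] at h
    exact Prod.ext h.1 h.2
  exact Measure.map_infinitePi_infinitePi_of_inj (P := fun _ => μ.prod μ) hinj

lemma GA_shift {J : (Fin d → ℤ) × Fin d → ℝ} {σ : (Fin d → ℤ) → ℝ} (h : GA J σ)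
    (w : Fin d → ℤ) : GA (shw w J) (fun x => σ (x + w)) := fun n => GI_shift (h.at w n)

lemma dd_shift {w : Fin d → ℤ} {k : Fin d} {r : ℕ} {W : (Fin d → ℤ) × Fin d → ℝ × ℝ}
    (h : W ∈ DD (w, k) r) : shW w W ∈ DD ((0 : Fin d → ℤ), k) r := by
  classical
  obtain ⟨σ, τ, hσ, hτ, he⟩ := h
  refine ⟨fun x => σ (x + w), fun x => τ (x + w), GA_shift hσ w, ?_, ?_⟩
  · have h1 : hyb ((0 : Fin d → ℤ), k) r (shW w W) = shw w (hyb (w, k) r W) := by
      funext f
      unfold hyb shW shw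
      have h2 : f ∈ tb (0 : Fin d → ℤ) r ↔ ((f.1 + w, f.2) : (Fin d → ℤ) × Fin d) ∈ tb w r := by
        rw [mem_tb, mem_tb, nx_shift, mem_bx, mem_bx, mem_bx, mem_bx, sub_zero, sub_zero,
          add_sub_cancel_right, add_sub_cancel_right]
      simp only
      by_cases h3 : f ∈ tb (0 : Fin d → ℤ) r
      · rw [if_pos h3, if_pos (h2.1 h3)]
      · rw [if_neg h3, if_neg (fun h4 => h3 (h2.2 h4))]
    rw [h1]
    exact GA_shift hτ w
  · unfold dC nx at he ⊢
    simp only [Set.mem_ofPred_eq, zero_add] at he ⊢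
    rw [add_comm (u k) w]
    exact he

lemma dd_le (w : Fin d → ℤ) (k : Fin d) (r : ℕ) :
    QQ μ d (DD (w, k) r) ≤ QQ μ d (DD ((0 : Fin d → ℤ), k) r) := by
  rw [← (shW_law μ w).measure_preimage (dd_meas ((0 : Fin d → ℤ), k) r).nullMeasurableSet]
  exact measure_mono fun W hW => dd_shift hW

lemma dd_le2 (hsym : μ.map (fun x => -x) = μ) (L : Set ((Fin d → ℤ) × Fin d)) (w : Fin d → ℤ)
    (k : Fin d) (r : ℕ) :
    QQ μ d (flW L ⁻¹' DD (w, k) r) ≤ QQ μ d (DD ((0 : Fin d → ℤ), k) r) := by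
  rw [(flW_law μ hsym L).measure_preimage (dd_meas _ _).nullMeasurableSet]
  exact dd_le μ w k r

/-- bad for the bond `(w, k)`: the far couplings matter for `W` or for the couplings changed on
`L` -/
def Bad (L : Set ((Fin d → ℤ) × Fin d)) (r : ℕ) (e : (Fin d → ℤ) × Fin d) :
    Set ((Fin d → ℤ) × Fin d → ℝ × ℝ) := DD e r ∪ flW L ⁻¹' DD e r

lemma bad_le (hsym : μ.map (fun x => -x) = μ) (L : Set ((Fin d → ℤ) × Fin d)) (w : Fin d → ℤ)
    (k : Fin d) (r : ℕ) :
    QQ μ d (Bad L r (w, k)) ≤ 2 * QQ μ d (DD ((0 : Fin d → ℤ), k) r) := by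
  unfold Bad
  refine (measure_union_le _ _).trans ?_
  rw [two_mul]
  exact add_le_add (dd_le μ w k r) (dd_le2 μ hsym L w k r)

lemma line_le (hsym : μ.map (fun x => -x) = μ) (L : Set ((Fin d → ℤ) × Fin d)) (s : Fin d → ℤ)
    (k : Fin d) (r m : ℕ) :
    QQ μ d (⋃ t ∈ Finset.range m, Bad L r (s + (t : ℤ) • u k, k)) ≤
      m * (2 * QQ μ d (DD ((0 : Fin d → ℤ), k) r)) := by
  calc QQ μ d (⋃ t ∈ Finset.range m, Bad L r (s + (t : ℤ) • u k, k))
      ≤ ∑ t ∈ Finset.range m, QQ μ d (Bad L r (s + (t : ℤ) • u k, k)) :=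
        measure_biUnion_finset_le _ _
    _ ≤ ∑ _t ∈ Finset.range m, 2 * QQ μ d (DD ((0 : Fin d → ℤ), k) r) :=
        Finset.sum_le_sum fun t _ => bad_le μ hsym L (s + (t : ℤ) • u k) k r
    _ = m * (2 * QQ μ d (DD ((0 : Fin d → ℤ), k) r)) := by
        rw [Finset.sum_const, Finset.card_range, nsmul_eq_mul]

theorem main (hd : 2 ≤ d) (hat : ∀ x, μ {x} = 0) (hsym : μ.map (fun x => -x) = μ) {i j : Fin d}
    (hij : i ≠ j) (r : ℕ) :
    1 ≤ (8 * r + 12) * (QQ μ d).real (DD ((0 : Fin d → ℤ), i) r) +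
      (8 * r + 4) * (QQ μ d).real (DD ((0 : Fin d → ℤ), j) r) := by
  classical
  set c : Fin d → ℤ := 0 with hc
  set a : Fin d → ℤ := c - ((r : ℤ) + 1) • u i - (r : ℤ) • u j with ha
  set b : Fin d → ℤ := c + ((r : ℤ) + 2) • u i - (r : ℤ) • u j with hb
  set d' : Fin d → ℤ := c - ((r : ℤ) + 1) • u i + ((r : ℤ) + 1) • u j with hd'
  set E1 := ⋃ t ∈ Finset.range (2 * r + 3), Bad (LL c i j) r (a + (t : ℤ) • u i, i) with hE1
  set E2 := ⋃ t ∈ Finset.range (2 * r + 3), Bad (KK c i j) r (d' + (t : ℤ) • u i, i) with hE2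
  set E3 := ⋃ t ∈ Finset.range (2 * r + 1), Bad (KK c i j) r (a + (t : ℤ) • u j, j) with hE3
  set E4 := ⋃ t ∈ Finset.range (2 * r + 1), Bad (KK c i j) r (b + (t : ℤ) • u j, j) with hE4
  have hae : ∀ᵐ W ∂(QQ μ d), Gn (fs W) ∧ ∀ e, Gn (hyb e r W) := by
    refine ((fs_law μ).quasiMeasurePreserving.ae (gn_ae μ hat)).and ?_
    rw [ae_all_iff]
    intro e
    exact (hyb_law μ e r).quasiMeasurePreserving.ae (gn_ae μ hat)
  have hcov : ∀ᵐ W ∂(QQ μ d), W ∈ E1 ∪ E2 ∪ (E3 ∪ E4) := by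
    filter_upwards [hae] with W hW
    by_contra hcon
    simp only [Set.mem_union, not_or] at hcon
    obtain ⟨⟨h1, h2⟩, h3, h4⟩ := hcon
    simp only [hE1, hE2, hE3, hE4, Set.mem_iUnion, not_exists, Finset.mem_range] at h1 h2 h3 h4
    have hsplit : ∀ {L : Set ((Fin d → ℤ) × Fin d)} {e : (Fin d → ℤ) × Fin d},
        W ∉ Bad L r e → W ∉ DD e r ∧ flW L W ∉ DD e r := by
      intro L e h
      unfold Bad at h
      rw [Set.mem_union, not_or] at h
      exact h
    exact sq r c hij (exists_GA hd hW.1) (exists_GA hd (hW.1.flS _))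
      (fun e => exists_GA hd (hW.2 e)) (fun t ht => hsplit (h1 t ht)) (fun t ht => hsplit (h2 t ht))
      (fun t ht => hsplit (h3 t ht)) (fun t ht => hsplit (h4 t ht))
  have h1 : (1 : ENNReal) ≤ QQ μ d (E1 ∪ E2 ∪ (E3 ∪ E4)) := by
    have h2 : QQ μ d Set.univ ≤ QQ μ d (E1 ∪ E2 ∪ (E3 ∪ E4)) := by
      refine measure_mono_ae ?_
      filter_upwards [hcov] with W hW _
      exact hW
    rwa [measure_univ] at h2
  set x := QQ μ d (DD ((0 : Fin d → ℤ), i) r) with hx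
  set y := QQ μ d (DD ((0 : Fin d → ℤ), j) r) with hy
  have h2 : QQ μ d (E1 ∪ E2 ∪ (E3 ∪ E4)) ≤
      ((2 * r + 3 : ℕ) * (2 * x) + (2 * r + 3 : ℕ) * (2 * x)) +
        ((2 * r + 1 : ℕ) * (2 * y) + (2 * r + 1 : ℕ) * (2 * y)) := by
    refine (measure_union_le _ _).trans (add_le_add ((measure_union_le _ _).trans
      (add_le_add ?_ ?_)) ((measure_union_le _ _).trans (add_le_add ?_ ?_)))
    · exact line_le μ hsym _ a i r (2 * r + 3)
    · exact line_le μ hsym _ d' i r (2 * r + 3)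
    · exact line_le μ hsym _ a j r (2 * r + 1)
    · exact line_le μ hsym _ b j r (2 * r + 1)
  have h3 := h1.trans h2
  have hxt : x ≠ ⊤ := measure_ne_top _ _
  have hyt : y ≠ ⊤ := measure_ne_top _ _
  have h4 := ENNReal.toReal_mono (by finiteness) h3
  have hxr : x.toReal = (QQ μ d).real (DD ((0 : Fin d → ℤ), i) r) := rfl
  have hyr : y.toReal = (QQ μ d).real (DD ((0 : Fin d → ℤ), j) r) := rfl
  rw [ENNReal.toReal_add (by finiteness) (by finiteness),
    ENNReal.toReal_add (by finiteness) (by finiteness),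
    ENNReal.toReal_add (by finiteness) (by finiteness)] at h4
  simp only [ENNReal.toReal_mul, ENNReal.toReal_natCast, ENNReal.toReal_one,
    ENNReal.toReal_ofNat] at h4
  rw [hxr, hyr] at h4
  push_cast at h4
  linarith

end Pool.Agent.Run7.h472.EA
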