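import Pool.Agent.Run7.h472.EA.B

/-!
# Edwards-Anderson ground states: uniqueness and local rules
-/

set_option autoImplicit false

open Finset MeasureTheory ProbabilityTheory Filter Topology

namespace Pool.Agent.Run7.h472.EA

open Pool.Agent.R239.EA

variable {d : ℕ}

variable (μ : Measure ℝ) [IsProbabilityMeasure μ]

lemma hyb_eq (i : Fin d) (r : ℕ) (W : (Fin d → ℤ) × Fin d → ℝ × ℝ) :
    ∀ f ∈ tb (0 : Fin d → ℤ) r, hyb ((0 : Fin d → ℤ), i) r W f = fs W f := by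
  intro f hf
  unfold hyb fs
  rw [if_pos hf]

/-- two ground states for `J` disagree on `e` -/
def TT (e : (Fin d → ℤ) × Fin d) : Set ((Fin d → ℤ) × Fin d → ℝ) :=
  {J | ∃ σ τ, GA J σ ∧ GA J τ ∧ e ∈ dC {x | σ x ≠ τ x}}

lemma tt_meas (i : Fin d) : MeasurableSet (TT ((0 : Fin d → ℤ), i)) := by
  have h1 : TT ((0 : Fin d → ℤ), i) = ⋂ n : ℕ, {J | IE J 0 n ((0 : Fin d → ℤ), i)} := by
    ext J
    simp only [Set.mem_iInter, Set.mem_ofPred_eq]
    constructor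
    · rintro ⟨σ, τ, h1, h2, h3⟩ n
      exact ⟨σ, τ, h1 n, h2 n, h3⟩
    · intro h
      exact compact_two ((0 : Fin d → ℤ), i) h
  rw [h1]
  exact MeasurableSet.iInter fun n => ie_meas (self_tb ((0 : Fin d → ℤ), i) n)

lemma tt_le (hd : 2 ≤ d) (hat : ∀ x, μ {x} = 0) (i : Fin d) (r : ℕ) :
    Lw μ d (TT ((0 : Fin d → ℤ), i)) ≤ QQ μ d (DD ((0 : Fin d → ℤ), i) r) := by
  rw [← (fs_law μ).measure_preimage (tt_meas i).nullMeasurableSet]
  refine measure_mono_ae ?_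
  filter_upwards [(hyb_law μ ((0 : Fin d → ℤ), i) r).quasiMeasurePreserving.ae (gn_ae μ hat)]
    with W hW hW2
  obtain ⟨σ, τ, h1, h2, h3⟩ := hW2
  obtain ⟨ρ, hρ⟩ := exists_GA hd hW
  by_cases h4 : ((0 : Fin d → ℤ), i) ∈ dC {x | σ x ≠ ρ x}
  · exact ⟨σ, ρ, h1, hρ, h4⟩
  · refine ⟨τ, ρ, h2, hρ, ?_⟩
    by_contra h5
    rw [setne (h1 0).1 (hρ 0).1 (h2 0).1, dC_symmDiff] at h3
    simp [h4, h5] at h3

theorem uniq_dd (hd : 2 ≤ d) (hat : ∀ x, μ {x} = 0) :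
    (∀ᵐ J ∂(Lw μ d), ∃ σ, GA J σ ∧ ∀ τ, GA J τ → τ = σ ∨ τ = -σ) ↔
      ∀ i : Fin d, Tendsto (fun r => QQ μ d (DD ((0 : Fin d → ℤ), i) r)) atTop (𝓝 0) := by
  constructor
  · intro h i
    have h1 := (unique_iff μ hd hat).1 h
    refine tendsto_of_tendsto_of_tendsto_of_le_of_le tendsto_const_nhds h1
      (fun _ => bot_le) fun r => ?_
    change QQ μ d (DD ((0 : Fin d → ℤ), i) r) ≤ Lw μ d {J | Inf J 0 r}
    rw [← (fs_law μ).measure_preimage (inf_meas 0 r).nullMeasurableSet]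
    refine measure_mono ?_
    rintro W ⟨σ, τ, h2, h3, h4⟩
    exact ⟨σ, τ, h2 r, GI_congr (hyb_eq i r W) (fun _ _ => rfl) (h3 r).1 (h3 r), i, h4⟩
  · intro h
    have h0 : ∀ i : Fin d, Lw μ d (TT ((0 : Fin d → ℤ), i)) = 0 := by
      intro i
      exact le_antisymm (ge_of_tendsto' (h i) (tt_le μ hd hat i)) bot_le
    have hnull : ∀ e : (Fin d → ℤ) × Fin d, Lw μ d (TT e) = 0 := by
      intro e
      refine measure_mono_null ?_ ((shw_law μ e.1).quasiMeasurePreserving.preimage_null (h0 e.2))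
      rintro J ⟨σ, τ, h1, h2, h3⟩
      refine ⟨fun x => σ (x + e.1), fun x => τ (x + e.1), GA_shift h1 _, GA_shift h2 _, ?_⟩
      unfold dC nx at h3 ⊢
      simp only [Set.mem_ofPred_eq, zero_add] at h3 ⊢
      rw [add_comm (u e.2) e.1]
      exact h3
    have hall : ∀ᵐ J ∂(Lw μ d), ∀ e, J ∉ TT e := by
      rw [ae_all_iff]
      intro e
      rw [ae_iff]
      simpa using hnull e
    filter_upwards [hall, gn_ae (d := d) μ hat] with J hJ hg
    obtain ⟨σ, hσ⟩ := exists_GA hd hg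
    refine ⟨σ, hσ, fun τ hτ => congruent (hσ 0).1 (hτ 0).1 ?_⟩
    rw [Set.eq_empty_iff_forall_notMem]
    intro e he
    exact hJ e ⟨σ, τ, hσ, hτ, he⟩

/-- a rule which only looks at the bonds touching the box of radius `r` is wrong with probability
at least one half of the influence -/
theorem rule_le (i : Fin d) (r : ℕ) (F : ((Fin d → ℤ) × Fin d → ℝ) → ℝ)
    (hF : ∀ J J' : (Fin d → ℤ) × Fin d → ℝ, (∀ f ∈ tb (0 : Fin d → ℤ) r, J f = J' f) →
      F J = F J') :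
    QQ μ d (DD ((0 : Fin d → ℤ), i) r) ≤ 2 * Lw μ d {J | ∃ σ, GA J σ ∧
      σ ((0 : Fin d → ℤ), i).1 * σ (nx ((0 : Fin d → ℤ), i)) ≠ F J} := by
  set S : Set ((Fin d → ℤ) × Fin d → ℝ) := {J | ∃ σ, GA J σ ∧
      σ ((0 : Fin d → ℤ), i).1 * σ (nx ((0 : Fin d → ℤ), i)) ≠ F J} with hS
  have h1 : DD ((0 : Fin d → ℤ), i) r ⊆ fs ⁻¹' S ∪ hyb ((0 : Fin d → ℤ), i) r ⁻¹' S := by
    rintro W ⟨σ, τ, h1, h2, h3⟩
    rw [edge_iff (h1 0).1 (h2 0).1] at h3
    have h4 : F (hyb ((0 : Fin d → ℤ), i) r W) = F (fs W) := hF _ _ (hyb_eq i r W)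
    by_cases h5 : σ ((0 : Fin d → ℤ), i).1 * σ (nx ((0 : Fin d → ℤ), i)) = F (fs W)
    · right
      refine ⟨τ, h2, fun h6 => h3 ?_⟩
      rw [h6, h4]
      exact h5
    · left
      exact ⟨σ, h1, h5⟩
  refine (measure_mono h1).trans ((measure_union_le _ _).trans ?_)
  rw [two_mul]
  refine add_le_add ?_ ?_
  · have h2 := Measure.le_map_apply (μ := QQ μ d) (fs_meas (d := d)).aemeasurable S
    rwa [(fs_law μ).map_eq] at h2
  · have h2 := Measure.le_map_apply (μ := QQ μ d)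
      (hyb_meas (d := d) ((0 : Fin d → ℤ), i) r).aemeasurable S
    rwa [(hyb_law μ ((0 : Fin d → ℤ), i) r).map_eq] at h2

end Pool.Agent.Run7.h472.EA
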