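import Pool.Agent.Run7.h472.EA.C

/-!
# Edwards-Anderson ground states: all directions are equivalent
-/

set_option autoImplicit false

open Finset MeasureTheory ProbabilityTheory Filter Topology

namespace Pool.Agent.Run7.h472.EA

open Pool.Agent.R239.EA

variable {d : ℕ}

/-- coordinates of a site permuted -/
def ps (s : Equiv.Perm (Fin d)) (v : Fin d → ℤ) : Fin d → ℤ := fun k => v (s k)

/-- bonds permuted -/
def pb (s : Equiv.Perm (Fin d)) (e : (Fin d → ℤ) × Fin d) : (Fin d → ℤ) × Fin d :=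
  (ps s e.1, s.symm e.2)

lemma ps_symm (s : Equiv.Perm (Fin d)) (v : Fin d → ℤ) : ps s.symm (ps s v) = v := by
  funext k
  unfold ps
  simp

lemma ps_symm' (s : Equiv.Perm (Fin d)) (v : Fin d → ℤ) : ps s (ps s.symm v) = v := by
  funext k
  unfold ps
  simp

lemma nx_pb (s : Equiv.Perm (Fin d)) (e : (Fin d → ℤ) × Fin d) : nx (pb s e) = ps s (nx e) := by
  funext k
  unfold nx pb ps u
  simp only [Pi.add_apply]
  congr 1
  by_cases h : s k = e.2
  · have h2 : k = s.symm e.2 := by rw [← h]; simp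
    rw [h, ← h2, Pi.single_eq_same, Pi.single_eq_same]
  · have h2 : k ≠ s.symm e.2 := by
      intro h3
      apply h
      rw [h3]
      simp
    rw [Pi.single_eq_of_ne h2, Pi.single_eq_of_ne h]

/-- the permutation of the bonds -/
def pbE (s : Equiv.Perm (Fin d)) : (Fin d → ℤ) × Fin d ≃ (Fin d → ℤ) × Fin d where
  toFun := pb s
  invFun := pb s.symm
  left_inv := by
    intro e
    unfold pb
    simp [ps_symm]
  right_inv := by
    intro e
    unfold pb
    simp [ps_symm']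

lemma GA_perm {J : (Fin d → ℤ) × Fin d → ℝ} {σ : (Fin d → ℤ) → ℝ} (h : GA J σ)
    (s : Equiv.Perm (Fin d)) : GA (fun e => J (pb s e)) (fun x => σ (ps s x)) := by
  rw [GA_iff] at h ⊢
  refine ⟨fun x => h.1 _, fun ρ hρ hfin hne => ?_⟩
  have h1 := h.2 (fun x => ρ (ps s.symm x)) (fun x => hρ _) ?_ ?_
  · rw [← finsum_comp_equiv (pbE s)] at h1
    refine lt_of_lt_of_eq h1 (finsum_congr fun e => ?_)
    change J (pb s e) * (σ (ps s e.1) * σ (nx (pb s e)) -
      ρ (ps s.symm (ps s e.1)) * ρ (ps s.symm (nx (pb s e)))) =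
      J (pb s e) * (σ (ps s e.1) * σ (ps s (nx e)) - ρ e.1 * ρ (nx e))
    rw [nx_pb, ps_symm, ps_symm]
  · have h2 : {x | ρ (ps s.symm x) ≠ σ x} = ps s.symm ⁻¹' {x | ρ x ≠ σ (ps s x)} := by
      ext x
      simp only [Set.mem_preimage, Set.mem_ofPred_eq, ps_symm']
    rw [h2]
    refine hfin.preimage (Function.Injective.injOn ?_)
    intro a b hab
    rw [← ps_symm' s a, hab, ps_symm']
  · intro h2
    apply hne
    funext x
    have h3 := congrFun h2 (ps s x)
    simp only [ps_symm] at h3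
    exact h3

/-- the couplings permuted -/
def pW (s : Equiv.Perm (Fin d)) (W : (Fin d → ℤ) × Fin d → ℝ × ℝ) :
    (Fin d → ℤ) × Fin d → ℝ × ℝ := fun e => W (pb s e)

lemma pb_tb (s : Equiv.Perm (Fin d)) (e : (Fin d → ℤ) × Fin d) (r : ℕ) :
    pb s e ∈ tb (0 : Fin d → ℤ) r ↔ e ∈ tb (0 : Fin d → ℤ) r := by
  have h1 : ∀ x : Fin d → ℤ, ps s x ∈ bx (0 : Fin d → ℤ) r ↔ x ∈ bx (0 : Fin d → ℤ) r := by
    intro x
    rw [mem_bx', mem_bx']
    unfold ps
    simp only [Pi.zero_apply, sub_zero]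
    constructor
    · intro h k
      have := h (s.symm k)
      simpa using this
    · intro h k
      exact h (s k)
  rw [mem_tb, mem_tb, nx_pb, h1]
  change ps s e.1 ∈ _ ∨ _ ↔ _
  rw [h1]

lemma dd_perm {s : Equiv.Perm (Fin d)} {k : Fin d} {r : ℕ} {W : (Fin d → ℤ) × Fin d → ℝ × ℝ}
    (h : W ∈ DD ((0 : Fin d → ℤ), k) r) : pW s W ∈ DD ((0 : Fin d → ℤ), s k) r := by
  classical
  obtain ⟨σ, τ, hσ, hτ, he⟩ := h
  refine ⟨fun x => σ (ps s x), fun x => τ (ps s x), GA_perm hσ s, ?_, ?_⟩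
  · have h1 : hyb ((0 : Fin d → ℤ), s k) r (pW s W) =
        fun e => hyb ((0 : Fin d → ℤ), k) r W (pb s e) := by
      funext f
      unfold hyb pW
      by_cases h3 : f ∈ tb (0 : Fin d → ℤ) r
      · rw [if_pos h3, if_pos ((pb_tb s f r).2 h3)]
      · rw [if_neg h3, if_neg (fun h4 => h3 ((pb_tb s f r).1 h4))]
    rw [h1]
    exact GA_perm hτ s
  · have h2 : ps s (0 : Fin d → ℤ) = 0 := rfl
    have h3 : ps s (nx ((0 : Fin d → ℤ), s k)) = nx ((0 : Fin d → ℤ), k) := by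
      rw [← nx_pb]
      unfold pb
      rw [h2]
      simp
    unfold dC at he ⊢
    simp only [Set.mem_ofPred_eq] at he ⊢
    rw [h2, h3]
    exact he

variable (μ : Measure ℝ) [IsProbabilityMeasure μ]

lemma pW_law (s : Equiv.Perm (Fin d)) : MeasurePreserving (pW s) (QQ μ d) (QQ μ d) := by
  refine ⟨by unfold pW; fun_prop, ?_⟩
  unfold QQ pW
  exact Measure.map_infinitePi_infinitePi_of_inj (P := fun _ => μ.prod μ) (pbE s).injective

lemma dd_perm_le (s : Equiv.Perm (Fin d)) (k : Fin d) (r : ℕ) :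
    QQ μ d (DD ((0 : Fin d → ℤ), k) r) ≤ QQ μ d (DD ((0 : Fin d → ℤ), s k) r) := by
  rw [← (pW_law μ s).measure_preimage (dd_meas ((0 : Fin d → ℤ), s k) r).nullMeasurableSet]
  exact measure_mono fun W hW => dd_perm hW

theorem dd_eq (i j : Fin d) (r : ℕ) :
    QQ μ d (DD ((0 : Fin d → ℤ), i) r) = QQ μ d (DD ((0 : Fin d → ℤ), j) r) := by
  have h1 := dd_perm_le μ (Equiv.swap i j) i r
  have h2 := dd_perm_le μ (Equiv.swap i j) j r
  rw [Equiv.swap_apply_left] at h1
  rw [Equiv.swap_apply_right] at h2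
  exact le_antisymm h1 h2

/-- every direction -/
theorem main_all (hd : 2 ≤ d) (hat : ∀ x, μ {x} = 0) (hsym : μ.map (fun x => -x) = μ)
    (i : Fin d) (r : ℕ) :
    1 ≤ (16 * (r + 1)) * (QQ μ d).real (DD ((0 : Fin d → ℤ), i) r) := by
  have hj : ∃ j : Fin d, i ≠ j := by
    by_cases h : i = ⟨0, by omega⟩
    · refine ⟨⟨1, by omega⟩, ?_⟩
      rw [h]
      intro h2
      have := congrArg Fin.val h2
      simp at this
    · exact ⟨_, h⟩
  obtain ⟨j, hij⟩ := hj
  have h1 := main μ hd hat hsym hij r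
  have h2 : (QQ μ d).real (DD ((0 : Fin d → ℤ), j) r) =
      (QQ μ d).real (DD ((0 : Fin d → ℤ), i) r) := by
    unfold Measure.real
    rw [dd_eq μ j i r]
  rw [h2] at h1
  linarith

end Pool.Agent.Run7.h472.EA
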